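import Pool.Agent.H829.GE.Dense

/-!
MP_54c2ef_al. Endomorphisms of free associative algebras over arbitrary commutative rings: one level of
approximation, at the residue fields, is sufficient.

The case of a field is the library theorem `FiniteDeterminacy` (`Pool.Agent.Y814.FD.fin_det`), which is used
here. The library theorem `AllCommutativeRings` treats all commutative rings `R`, for endomorphisms which are
approximable over `R` to every order.

Proof in outline. Free algebras of finite rank over commutative rings are Hopfian: a surjective endomorphism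
is bijective (`injective_of_surjective`). The ideals `I` for which the reduction of `φ` modulo `I` is surjective
form an Oka family of finite character, so that, if `φ` is not surjective, there is a maximal ideal `P` among
those for which the reduction is not surjective, and it is prime. Over the residue field of `P` the variable
`x_j` is in the image; by clearing denominators `s x_j ≡ φ(a)` modulo `P` with `s ∉ P`. The reduction of `φ`
modulo `P + (s)` is surjective, hence injective, so `a ∈ P + (s)` and `x_j` is in the image modulo `P`, a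
contradiction (`surjective_of_fibres`). The preimage of `x_j` of degree at most `E` is a solution of a system
of linear equations with coefficients in `R` (this is where the bound for the degree of the inverse, for all
fields, is necessary); if it has a solution over fields `L_P`, `P ∈ S`, then also over the residue field
of the prime ideal `⋂ S` (`preimage_of_dense`). 
-/

set_option autoImplicit false

namespace Pool.Agent.Results.MP_54c2ef_al.CriterionAtResidueFields

open Pool.Agent.Y861.GoodR Pool.Agent.H829.GE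

universe u

/-- The power `I^m` of the ideal `I = (x_1 - p_1, …, x_n - p_n)` of the free algebra `R⟨x_1, …, x_n⟩`: the
`R`-span of all products of at least `m` factors `x_i - p_i`. -/
def powAt {R : Type u} [CommRing R] {n : ℕ} (p : Fin n → R) (m : ℕ) :
    Submodule R (FreeAlgebra R (Fin n)) :=
  Submodule.span R {w | ∃ l : List (Fin n), m ≤ l.length ∧
    w = (l.map (fun i => FreeAlgebra.ι R i - algebraMap R _ (p i))).prod}

/-- The power `I^m` of the ideal `I = (x_1, …, x_n)` of the free algebra `R⟨x_1, …, x_n⟩`: the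
`R`-span of all monomials of degree at least `m`. -/
def augPow (R : Type u) [CommRing R] (n m : ℕ) : Submodule R (FreeAlgebra R (Fin n)) :=
  Submodule.span R
    {w | ∃ l : List (Fin n), m ≤ l.length ∧ w = (l.map (FreeAlgebra.ι R)).prod}

/-- The elements of degree at most `d` of `R⟨x_1, …, x_n⟩`: the `R`-span of all monomials of
degree at most `d`. -/
def degLE (R : Type u) [CommRing R] (n d : ℕ) : Submodule R (FreeAlgebra R (Fin n)) :=
  Submodule.span R
    {w | ∃ l : List (Fin n), l.length ≤ d ∧ w = (l.map (FreeAlgebra.ι R)).prod}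

/-- `φ` is good at the level `m`: there are an endomorphism `ψ` and an automorphism `α` with
`φ = ψ ∘ α` or `φ = α ∘ ψ` (both orders of composition are allowed) and `ψ(x_i) ≡ x_i` modulo
`I^m` for all `i`; or, more generally, `φ` is approximated to the order `m` by an automorphism `α` at some
point `p ∈ R^n`: `φ(x_i) ≡ α(x_i)` modulo the `m`-th power of `(x_1 - p_1, …, x_n - p_n)` for all `i`. -/
def GoodAt {R : Type u} [CommRing R] {n : ℕ} (m : ℕ)
    (φ : FreeAlgebra R (Fin n) →ₐ[R] FreeAlgebra R (Fin n)) : Prop :=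
  (∃ (ψ : FreeAlgebra R (Fin n) →ₐ[R] FreeAlgebra R (Fin n))
    (α : FreeAlgebra R (Fin n) ≃ₐ[R] FreeAlgebra R (Fin n)),
      ((∀ a, φ a = ψ (α a)) ∨ (∀ a, φ a = α (ψ a))) ∧
      ∀ i, ψ (FreeAlgebra.ι R i) - FreeAlgebra.ι R i ∈ augPow R n m) ∨
  (∃ (p : Fin n → R) (α : FreeAlgebra R (Fin n) ≃ₐ[R] FreeAlgebra R (Fin n)),
    ∀ i, φ (FreeAlgebra.ι R i) - α (FreeAlgebra.ι R i) ∈ powAt p m)

/-- The extension of scalars of an endomorphism of `R⟨x_1, …, x_n⟩` to an endomorphism of
`L⟨x_1, …, x_n⟩`, for an `R`-algebra `L`: the coefficients of the `φ(x_i)` are mapped to `L`. -/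
noncomputable def extend {R : Type u} [CommRing R] {n : ℕ} (L : Type u) [CommRing L] [Algebra R L]
    (φ : FreeAlgebra R (Fin n) →ₐ[R] FreeAlgebra R (Fin n)) :
    FreeAlgebra L (Fin n) →ₐ[L] FreeAlgebra L (Fin n) :=
  FreeAlgebra.lift L fun i => FreeAlgebra.lift R (FreeAlgebra.ι L) (φ (FreeAlgebra.ι R i))

/-- `φ` is good at the level `m` at the prime ideal `P`: there is a field `L`, which is an `R`-algebra, such that
`P` is the kernel of `R → L` (in other words, a field which contains the residue field of `P`), and such that the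
extension of `φ` to `L` is good at the level `m`. -/
def GoodAtPrime {R : Type u} [CommRing R] {n : ℕ} (m : ℕ)
    (φ : FreeAlgebra R (Fin n) →ₐ[R] FreeAlgebra R (Fin n)) (P : PrimeSpectrum R) : Prop :=
  ∃ (L : Type u) (_ : Field L) (_ : Algebra R L),
    RingHom.ker (algebraMap R L) = P.asIdeal ∧ GoodAt m (extend L φ)

/-- `2^s (s+1)` -/
def lev (s : ℕ) : ℕ := 2 ^ s * (1 + s)

/-- `n (n+1)^d` -/
def siz (n d : ℕ) : ℕ := n * (1 + n) ^ d

/-- `a (b + d + 1) + b` with `a = n (n+1)^d` and `b = n (n+1)^(2d)`. -/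
def jacDeg (n d : ℕ) : ℕ := siz n d * (siz n (2 * d) + d + 1) + siz n (2 * d)

/-- The bound for the degree of the inverse endomorphism: `1 + n + ⋯ + n^(jacDeg n d + 1)`. -/
def invDeg (n d : ℕ) : ℕ := ∑ k ∈ Finset.range (jacDeg n d + 2), n ^ k

/-- `lev a * lev (a (n+1)^(lev a * (b + d)))` with `a = n (n+1)^d` and `b = n (n+1)^(2d)`. -/
def matSize (n d : ℕ) : ℕ :=
  lev (siz n d) * lev (siz n d * (1 + n) ^ (lev (siz n d) * (siz n (2 * d) + d)))

/-- The level of goodness which is sufficient in degree at most `d`. -/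
def level (n d : ℕ) : ℕ :=
  max (n * matSize n d * d + 2) (invDeg n d * lev (invDeg n d) + 1)

lemma fieldLevel' (n d : ℕ) : FieldLevel.{u} n d (level n d) (invDeg n d) :=
  fieldLevel n d (siz n d) (siz n (2 * d))
    (lev (siz n d * (1 + n) ^ (lev (siz n d) * (siz n (2 * d) + d)))) (jacDeg n d) (invDeg n d)
    (level n d) rfl (by unfold siz; ring) rfl rfl rfl (le_max_left _ _) (le_max_right _ _)

variable {R : Type u} [CommRing R] {n : ℕ}

/-- identification of the free algebra with the free monoid algebra -/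
noncomputable abbrev ee (R : Type u) [CommRing R] (n : ℕ) : FreeAlgebra R (Fin n) ≃ₐ[R] FR R n :=
  FreeAlgebra.equivMonoidAlgebraFreeMonoid

lemma ee_ι (i : Fin n) : ee R n (FreeAlgebra.ι R i) = gx i := by
  simp [ee, FreeAlgebra.equivMonoidAlgebraFreeMonoid, gx]

lemma ee_prod (l : List (Fin n)) :
    ee R n ((l.map (FreeAlgebra.ι R)).prod) = mon (FreeMonoid.ofList l) := by
  induction l with
  | nil => rw [List.map_nil, List.prod_nil, map_one]; rfl
  | cons i l ih =>
    rw [List.map_cons, List.prod_cons, map_mul, ih, ee_ι, FreeMonoid.ofList_cons, mon_mul]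
    rfl

/-- transport of an endomorphism -/
noncomputable def tp (φ : FreeAlgebra R (Fin n) →ₐ[R] FreeAlgebra R (Fin n)) :
    FR R n →ₐ[R] FR R n :=
  ((ee R n : FreeAlgebra R (Fin n) →ₐ[R] FR R n).comp φ).comp
    ((ee R n).symm : FR R n →ₐ[R] FreeAlgebra R (Fin n))

lemma tp_apply (φ : FreeAlgebra R (Fin n) →ₐ[R] FreeAlgebra R (Fin n)) (a : FR R n) :
    tp φ a = ee R n (φ ((ee R n).symm a)) := rfl

lemma tp_gx (φ : FreeAlgebra R (Fin n) →ₐ[R] FreeAlgebra R (Fin n)) (i : Fin n) :
    tp φ (gx i) = ee R n (φ (FreeAlgebra.ι R i)) := by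
  rw [tp_apply, ← ee_ι, AlgEquiv.symm_apply_apply]

lemma bij_of_tp (φ : FreeAlgebra R (Fin n) →ₐ[R] FreeAlgebra R (Fin n))
    (h : Function.Bijective (tp φ)) : Function.Bijective φ := by
  have h1 : (φ : FreeAlgebra R (Fin n) → FreeAlgebra R (Fin n))
      = (ee R n).symm ∘ (tp φ) ∘ (ee R n) := by
    funext a
    show φ a = (ee R n).symm (tp φ (ee R n a))
    rw [tp_apply, AlgEquiv.symm_apply_apply, AlgEquiv.symm_apply_apply]
  rw [h1]
  exact (ee R n).symm.bijective.comp (h.comp (ee R n).bijective)

lemma ord_of_mem {m : ℕ} {a : FreeAlgebra R (Fin n)} (ha : a ∈ augPow R n m) :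
    Ord m (ee R n a) := by
  induction ha using Submodule.span_induction with
  | mem x h =>
    obtain ⟨l, hl, rfl⟩ := h
    rw [ee_prod]
    exact Ord.mon _ hl
  | zero => rw [map_zero]; exact Ord.zero
  | add x y _ _ hx hy => rw [map_add]; exact hx.add hy
  | smul c x _ hx => rw [map_smul]; exact hx.smul c

lemma deg_of_mem {d : ℕ} {a : FreeAlgebra R (Fin n)} (ha : a ∈ degLE R n d) :
    Deg d (ee R n a) := by
  induction ha using Submodule.span_induction with
  | mem x h =>
    obtain ⟨l, hl, rfl⟩ := h
    rw [ee_prod]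
    exact (Deg.mon _).mono hl
  | zero => rw [map_zero]; exact Deg.zero
  | add x y _ _ hx hy => rw [map_add]; exact hx.add hy
  | smul c x _ hx => rw [map_smul]; exact hx.smul c

lemma mem_of_deg {d : ℕ} {a : FR R n} (ha : Deg d a) :
    (ee R n).symm a ∈ degLE R n d := by
  rw [FR_sum a, map_sum]
  apply Submodule.sum_mem
  intro w hw
  rw [map_smul]
  apply Submodule.smul_mem
  apply Submodule.subset_span
  refine ⟨w.toList, ?_, ?_⟩
  · by_contra hlt
    exact (Finsupp.mem_support_iff.mp hw) (ha w (by
      show d < w.toList.length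
      omega))
  · apply (ee R n).injective
    rw [AlgEquiv.apply_symm_apply, ee_prod]
    rfl

lemma ord_of_mem_powAt {p : Fin n → R} {m : ℕ} {a : FreeAlgebra R (Fin n)} (ha : a ∈ powAt p m) :
    Ord m (tr p (ee R n a)) := by
  induction ha using Submodule.span_induction with
  | mem x h =>
    obtain ⟨l, hl, rfl⟩ := h
    have e : tr p (ee R n ((l.map (fun i => FreeAlgebra.ι R i - algebraMap R _ (p i))).prod)) =
        mon (FreeMonoid.ofList l) := by
      clear hl
      induction l with
      | nil => rw [List.map_nil, List.prod_nil, map_one, map_one]; rfl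
      | cons i l ih =>
        rw [List.map_cons, List.prod_cons, map_mul, map_mul, ih, FreeMonoid.ofList_cons, mon_mul,
          map_sub, ee_ι, map_sub, tr_gx, AlgEquiv.commutes, AlgHom.commutes,
          Algebra.algebraMap_eq_smul_one, add_sub_cancel_right]
        rfl
    rw [e]
    exact Ord.mon _ hl
  | zero => rw [map_zero, map_zero]; exact Ord.zero
  | add x y _ _ hx hy => rw [map_add, map_add]; exact hx.add hy
  | smul c x _ hx => rw [map_smul, map_smul]; exact hx.smul c

/-- transport of an automorphism to the monoid algebra -/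
noncomputable def tE (α : FreeAlgebra R (Fin n) ≃ₐ[R] FreeAlgebra R (Fin n)) :
    FR R n ≃ₐ[R] FR R n :=
  ((ee R n).symm.trans α).trans (ee R n)

lemma tE_gx (α : FreeAlgebra R (Fin n) ≃ₐ[R] FreeAlgebra R (Fin n)) (i : Fin n) :
    tE α (gx i) = ee R n (α (FreeAlgebra.ι R i)) := by
  show ee R n (α ((ee R n).symm (gx i))) = _
  rw [← ee_ι, AlgEquiv.symm_apply_apply]

lemma tr_zero (a : FR R n) : tr (fun _ => (0 : R)) a = a := by
  have : tr (fun _ => (0 : R)) = AlgHom.id R (FR R n) := by
    apply hom_ext
    intro i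
    rw [tr_gx, zero_smul, add_zero]
    rfl
  rw [this]
  rfl

lemma app1_of_goodAt (m : ℕ) (φ : FreeAlgebra R (Fin n) →ₐ[R] FreeAlgebra R (Fin n))
    (h : GoodAt m φ) : App1 m (tp φ) := by
  rcases h with ⟨ψ, α, h1 | h1, h2⟩ | ⟨p, α, h1⟩
  · refine ⟨fun _ => 0, tE α, fun i => ?_⟩
    rw [tr_zero]
    have h3 : ∀ i, Ord m ((tp ψ) (gx i) - (AlgHom.id R (FR R n)) (gx i)) := by
      intro i
      rw [tp_gx, AlgHom.id_apply, ← ee_ι, ← map_sub]
      exact ord_of_mem (h2 i)
    have h4 := hom_sub_ord (tp ψ) (AlgHom.id R (FR R n)) h3 (tE α (gx i))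
    have h5 : (tp ψ) (tE α (gx i)) = tp φ (gx i) := by
      rw [tp_gx, h1, tp_apply]
      show ee R n (ψ ((ee R n).symm (ee R n (α ((ee R n).symm (gx i)))))) = _
      rw [AlgEquiv.symm_apply_apply, ← ee_ι, AlgEquiv.symm_apply_apply]
    rwa [h5, AlgHom.id_apply] at h4
  · let p : Fin n → R := fun j => eps R n ((tE α).symm (gx j))
    have hp : (eps R n).comp (tr p)
        = (eps R n).comp ((tE α).symm : FR R n →ₐ[R] FR R n) := by
      apply hom_ext
      intro i
      show eps R n (tr p (gx i)) = eps R n ((tE α).symm (gx i))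
      rw [tr_gx, map_add, eps_gx, map_smul, map_one, zero_add, smul_eq_mul, mul_one]
    refine ⟨p, tE α, fun i => ?_⟩
    have h3 : Ord m ((tp ψ) (gx i) - gx i) := by
      rw [tp_gx, ← ee_ι, ← map_sub]
      exact ord_of_mem (h2 i)
    have h4 : ∀ j, Ord 1 (((tr p).comp (tE α : FR R n →ₐ[R] FR R n)) (gx j)) := by
      intro j
      rw [ord_one_iff]
      have h5 := congrArg (fun g : FR R n →ₐ[R] R => g (tE α (gx j))) hp
      simp only [AlgHom.comp_apply] at h5
      have h6 : ((tE α).symm : FR R n →ₐ[R] FR R n) (tE α (gx j)) = gx j :=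
        (tE α).symm_apply_apply _
      rw [h6, eps_gx] at h5
      exact h5
    have h7 := h3.map ((tr p).comp (tE α : FR R n →ₐ[R] FR R n)) h4
    have h8 : ((tr p).comp (tE α : FR R n →ₐ[R] FR R n)) ((tp ψ) (gx i) - gx i)
        = tr p (tp φ (gx i) - tE α (gx i)) := by
      show tr p (tE α ((tp ψ) (gx i) - gx i)) = _
      rw [map_sub (tE α)]
      congr 2
      rw [tp_gx, tp_gx, h1]
      show ee R n (α ((ee R n).symm (ee R n (ψ (FreeAlgebra.ι R i))))) = _
      rw [AlgEquiv.symm_apply_apply]
    rwa [h8] at h7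
  · refine ⟨p, tE α, fun i => ?_⟩
    rw [tp_gx, tE_gx, ← map_sub]
    exact ord_of_mem_powAt (h1 i)

section extension

variable (L : Type u) [CommRing L] [Algebra R L]

lemma ee_lift (a : FreeAlgebra R (Fin n)) :
    ee L n (FreeAlgebra.lift R (FreeAlgebra.ι L) a) = bc (algebraMap R L) (ee R n a) := by
  induction a using FreeAlgebra.induction with
  | grade0 r =>
    rw [AlgHom.commutes, AlgEquiv.commutes, IsScalarTower.algebraMap_apply R L (FreeAlgebra L (Fin n)),
      AlgEquiv.commutes, Algebra.algebraMap_eq_smul_one (R := L) (A := FR L n),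
      Algebra.algebraMap_eq_smul_one (R := R) (A := FR R n), bc_smul, map_one (bc (algebraMap R L))]
  | grade1 i => rw [FreeAlgebra.lift_ι_apply, ee_ι, ee_ι, bc_gx]
  | mul a b ha hb => rw [map_mul, map_mul, map_mul, map_mul, ha, hb]
  | add a b ha hb => rw [map_add, map_add, map_add, map_add, ha, hb]

lemma tp_extend (φ : FreeAlgebra R (Fin n) →ₐ[R] FreeAlgebra R (Fin n)) :
    tp (extend L φ) = bh (algebraMap R L) (tp φ) := by
  apply hom_ext
  intro i
  rw [tp_gx, bh_gx, tp_gx, extend, FreeAlgebra.lift_ι_apply, ee_lift]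

end extension

lemma goodAt_of_bijective (m : ℕ) (φ : FreeAlgebra R (Fin n) →ₐ[R] FreeAlgebra R (Fin n))
    (h : Function.Bijective φ) : GoodAt m φ := by
  refine Or.inl ⟨AlgHom.id R _, AlgEquiv.ofBijective φ h, Or.inl fun a => rfl, fun i => ?_⟩
  rw [AlgHom.id_apply, sub_self]
  exact Submodule.zero_mem _

lemma isFib_residueField (P : Ideal R) [P.IsPrime] : IsFib P (algebraMap R P.ResidueField) where
  ker r := Ideal.algebraMap_residueField_eq_zero
  frac x := by
    obtain ⟨a, s, hs, e⟩ := IsFractionRing.div_surjective (A := R ⧸ P) x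
    obtain ⟨a, rfl⟩ := Ideal.Quotient.mk_surjective a
    obtain ⟨s, rfl⟩ := Ideal.Quotient.mk_surjective s
    have hs0 : Ideal.Quotient.mk P s ≠ 0 := nonZeroDivisors.ne_zero hs
    refine ⟨s, a, fun h => hs0 (Ideal.Quotient.eq_zero_iff_mem.2 h), ?_⟩
    have h1 : ∀ r : R, algebraMap R P.ResidueField r
        = algebraMap (R ⧸ P) P.ResidueField (Ideal.Quotient.mk P r) := fun r => rfl
    have h2 : algebraMap (R ⧸ P) P.ResidueField (Ideal.Quotient.mk P s) ≠ 0 := by
      rw [← h1]
      intro h
      exact hs0 (Ideal.Quotient.eq_zero_iff_mem.2 (Ideal.algebraMap_residueField_eq_zero.1 h))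
    rw [h1, h1, ← e]
    field_simp

lemma tp_bijective (φ : FreeAlgebra R (Fin n) →ₐ[R] FreeAlgebra R (Fin n))
    (h : Function.Bijective φ) : Function.Bijective (tp φ) :=
  (ee R n).bijective.comp (h.comp (ee R n).symm.bijective)

lemma bh_bijective {S : Type u} [CommRing S] (f : R →+* S) (φ : FR R n →ₐ[R] FR R n)
    (h : Function.Bijective φ) : Function.Bijective (bh f φ) := by
  have e : bh f φ = (be f (AlgEquiv.ofBijective φ h) : FR S n →ₐ[S] FR S n) := by
    apply hom_ext
    intro i
    rw [bh_gx]
    exact (be_gx f (AlgEquiv.ofBijective φ h) i).symm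
  rw [e]
  exact (be f (AlgEquiv.ofBijective φ h)).bijective

/-- goodness at the primes of a set `S` implies bijectivity at the residue field of the intersection of the
primes of `S` -/
lemma generic (d : ℕ) (φ : FreeAlgebra R (Fin n) →ₐ[R] FreeAlgebra R (Fin n))
    (hd : ∀ i, φ (FreeAlgebra.ι R i) ∈ degLE R n d) (S : Set (PrimeSpectrum R)) (Q : Ideal R)
    [Q.IsPrime] (hS : ∀ s : R, s ∈ Q ↔ ∀ P ∈ S, s ∈ P.asIdeal)
    (h : ∀ P ∈ S, GoodAtPrime (level n d) φ P) :
    Function.Bijective (bh (algebraMap R Q.ResidueField) (tp φ)) := by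
  refine (generic_of_dense (fieldLevel' n d) (tp φ)
    (fun i => by rw [tp_gx]; exact deg_of_mem (hd i)) Q _ (isFib_residueField Q)
    (PrimeSpectrum.asIdeal '' S) (fun s => ?_) ?_).1
  · rw [hS]
    constructor
    · rintro h1 _ ⟨P, hP, rfl⟩
      exact h1 P hP
    · intro h1 P hP
      exact h1 _ ⟨P, hP, rfl⟩
  · rintro _ ⟨P, hP, rfl⟩
    obtain ⟨L, _, _, hker, hg⟩ := h P hP
    refine ⟨L, inferInstance, algebraMap R L, fun r => ?_, ?_⟩
    · rw [← hker, RingHom.mem_ker]
    · rw [← tp_extend]
      exact app1_of_goodAt _ _ hg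

/-- **A criterion for automorphisms of free associative algebras over commutative rings.** 
Let `R` be a commutative ring and `φ` an endomorphism of `R⟨x_1, …, x_n⟩` of degree at most `d`.

1. `φ` is an automorphism if and only if it is good at the level `level n d`, if and only if it is good
at the level `level n d` at all prime ideals.
2. If `R` is a Jacobson ring, it is sufficient to consider the maximal ideals.
3. Let `Q` be a prime ideal which is the intersection of the prime ideals of a set `S`. If `φ` is good at the level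
`level n d` at all `P` in `S`, then `φ` is an automorphism over the residue field of `Q`.
4. If `R` is reduced and `φ` is an automorphism, then the inverse of `φ` has degree at most `invDeg n d`. -/
theorem result (R : Type u) [CommRing R] (n d : ℕ)
    (φ : FreeAlgebra R (Fin n) →ₐ[R] FreeAlgebra R (Fin n))
    (hd : ∀ i, φ (FreeAlgebra.ι R i) ∈ degLE R n d) :
    List.TFAE [Function.Bijective φ, GoodAt (level n d) φ,
      ∀ P : PrimeSpectrum R, GoodAtPrime (level n d) φ P] ∧
    (IsJacobsonRing R →
      (∀ P : PrimeSpectrum R, P.asIdeal.IsMaximal → GoodAtPrime (level n d) φ P) →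
      Function.Bijective φ) ∧
    (∀ (S : Set (PrimeSpectrum R)) (Q : PrimeSpectrum R),
      PrimeSpectrum.vanishingIdeal S = Q.asIdeal →
      (∀ P ∈ S, GoodAtPrime (level n d) φ P) →
      Function.Bijective (extend Q.asIdeal.ResidueField φ)) ∧
    (IsReduced R → ∀ hφ : Function.Bijective φ, ∀ i,
      (AlgEquiv.ofBijective φ hφ).symm (FreeAlgebra.ι R i) ∈ degLE R n (invDeg n d)) := by
  have hd' : ∀ i, Deg d (tp φ (gx i)) := fun i => by rw [tp_gx]; exact deg_of_mem (hd i)
  refine ⟨?_, ?_, ?_, ?_⟩
  · tfae_have 1 → 2 := goodAt_of_bijective _ φ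
    tfae_have 2 → 1 := fun h =>
      bij_of_tp φ (bijective_of_app1 (fieldLevel' n d) (tp φ) hd' (app1_of_goodAt _ φ h))
    tfae_have 1 → 3 := by
      intro h P
      refine ⟨P.asIdeal.ResidueField, inferInstance, inferInstance, ?_, ?_⟩
      · ext r
        rw [RingHom.mem_ker, Ideal.algebraMap_residueField_eq_zero]
      · apply goodAt_of_bijective
        apply bij_of_tp
        rw [tp_extend]
        exact bh_bijective _ _ (tp_bijective φ h)
    tfae_have 3 → 1 := by
      intro h
      apply bij_of_tp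
      apply bijective_of_fibres
      intro P hP
      refine ⟨P.ResidueField, inferInstance, algebraMap R P.ResidueField, isFib_residueField P, ?_⟩
      exact (generic d φ hd {⟨P, hP⟩} P (fun s => by simp) (fun P' _ => h P')).2
    tfae_finish
  · intro hJ h
    apply bij_of_tp
    apply bijective_of_fibres
    intro Q hQ
    refine ⟨Q.ResidueField, inferInstance, algebraMap R Q.ResidueField, isFib_residueField Q, ?_⟩
    refine (generic d φ hd {P | P.asIdeal.IsMaximal ∧ Q ≤ P.asIdeal} Q (fun s => ?_)
      (fun P hP => h P hP.1)).2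
    constructor
    · intro hs P hP
      exact hP.2 hs
    · intro hs
      have h1 : Q.jacobson = Q := IsJacobsonRing.out hJ hQ.isRadical
      rw [← h1, Ideal.jacobson, Ideal.mem_sInf]
      intro J hJ'
      exact hs ⟨J, hJ'.2.isPrime⟩ ⟨hJ'.2, hJ'.1⟩
  · intro S Q hSQ h
    apply bij_of_tp
    rw [tp_extend]
    exact generic d φ hd S Q.asIdeal (fun s => by rw [← hSQ, PrimeSpectrum.mem_vanishingIdeal]) h
  · intro _ hφ i
    have h1 := deg_inv (fieldLevel' n d) (tp φ) hd'
      (app1_of_goodAt _ φ (goodAt_of_bijective _ φ hφ)) i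
      (ee R n ((AlgEquiv.ofBijective φ hφ).symm (FreeAlgebra.ι R i))) (by
        rw [tp_apply, AlgEquiv.symm_apply_apply]
        have h2 : φ ((AlgEquiv.ofBijective φ hφ).symm (FreeAlgebra.ι R i)) = FreeAlgebra.ι R i :=
          (AlgEquiv.ofBijective φ hφ).apply_symm_apply _
        rw [h2, ee_ι])
    have h3 := mem_of_deg h1
    rwa [AlgEquiv.symm_apply_apply] at h3

end Pool.Agent.Results.MP_54c2ef_al.CriterionAtResidueFields
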