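import Pool.Agent.H316.LL.Lay4
import Pool.Agent.H316.LL.Ex

/-!
MP_54c2ef_al. How good must an endomorphism of degree at most `d` of the free algebra `A = K⟨x_1, …, x_n⟩`
be in order to be invertible modulo all powers of the commutator ideal?

An endomorphism `φ` acts on `E^n` for all `K`-algebras `E`: `X ↦ (φ(x_1)(X), …, φ(x_n)(X))`. If `φ` is an
automorphism then this map is bijective for all `E`. Let `φ` be of degree at most `d` and good at the single
level `n(d-1)+2`. Then the map is bijective for all `K`-algebras `E` with nilpotent commutator ideal (all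
commutative algebras, triangular matrices of any size over commutative algebras, `A/C^r`, ...). In particular
`φ` induces automorphisms of `A/C^r` for all `r`, where `C` is the commutator ideal of `A`; for `r = 1` this is
`K[x_1, …, x_n]`. The level `n(d-1)+2` is the least possible, over every field, for all `n ≥ 1` and `d ≥ 2`: the
endomorphism `x_1 ↦ x_1 + x_n^d`, `x_(i+1) ↦ x_(i+1) + x_i^d` is good at the level `n(d-1)+1`, but it is not
injective on `L^n`, for all algebraically closed fields `L` over `K`.

Proof. The Jacobian matrix `J(X, Y)` at two points is defined by noncommutative divided differences and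
satisfies `J(X, Y)(X - Y) = Φ(X) - Φ(Y)`. For generic points `tX, tY` with coordinates in a commutative
polynomial ring its determinant is a polynomial in `t` of degree at most `n(d-1)`, and it is congruent
to a constant modulo `t^(n(d-1)+1)` by the chain rule, since for automorphisms it is a unit; so it is a constant
different from zero, and `J(X, Y)` is invertible for points over all commutative algebras. Now let `C^k` be the
powers of the commutator ideal of `E`. On `C^k/C^(k+1)` the left multiplications by the `X_i` and the right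
multiplications by the `Y_i` generate a commutative algebra of operators, and `J(X, Y)` acts on
`(C^k/C^(k+1))^n` as an invertible matrix over this algebra. This gives injectivity, and surjectivity by
Newton's method from the case of the commutative algebra `E/C`. In the commutative case: a polynomial map of
affine space which is injective on the points over all commutative algebras is an automorphism: the
variables are rational functions of the values, since `x_j ⊗ 1 = 1 ⊗ x_j` over the field generated by the
values, and by the theorem of Ax and Grothendieck and the Nullstellensatz the denominators are units.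

In the example, the automorphism is `x_(i+1) ↦ x_(i+1) + x_i^d`, `x_1 ↦ x_1 + V_n^d` where `V_1 = 0` and
`V_(i+1) = x_(i+1) + x_i^d - V_i^d`, so that `V_i ≡ x_i` modulo terms of degree at least `(i-1)(d-1)+1`.

The Jacobian at two points is taken from the library module `H2.FreeGood`.
-/

set_option autoImplicit false

namespace Pool.Agent.Results.MP_54c2ef_al.ExactLevelNilCommutator

open FreeAlgebra Pool.Agent.H316

/-- The power `I^m` of the ideal `I = (x_1, …, x_n)` of the free algebra `K⟨x_1, …, x_n⟩`: the
`K`-span of all monomials of degree at least `m`. -/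
def augPow (K : Type) [Field K] (n m : ℕ) : Submodule K (FreeAlgebra K (Fin n)) :=
  Submodule.span K {w | ∃ l : List (Fin n), m ≤ l.length ∧ w = (l.map (ι K)).prod}

/-- The elements of degree at most `d` of `K⟨x_1, …, x_n⟩`: the `K`-span of all monomials of
degree at most `d`. -/
def degLE (K : Type) [Field K] (n d : ℕ) : Submodule K (FreeAlgebra K (Fin n)) :=
  Submodule.span K {w | ∃ l : List (Fin n), l.length ≤ d ∧ w = (l.map (ι K)).prod}

/-- `φ` is good at the level `m`: `φ = ψ ∘ α` with an automorphism `α` and an endomorphism `ψ` such that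
`ψ(x_i) ≡ x_i` modulo `I^m` for all `i`. -/
def GoodAt {K : Type} [Field K] {n : ℕ} (m : ℕ)
    (φ : FreeAlgebra K (Fin n) →ₐ[K] FreeAlgebra K (Fin n)) : Prop :=
  ∃ (ψ : FreeAlgebra K (Fin n) →ₐ[K] FreeAlgebra K (Fin n))
    (α : FreeAlgebra K (Fin n) ≃ₐ[K] FreeAlgebra K (Fin n)),
      (∀ a, φ a = ψ (α a)) ∧ ∀ i, ψ (ι K i) - ι K i ∈ augPow K n m

/-- The map `E^n → E^n`, `X ↦ (φ(x_1)(X), …, φ(x_n)(X))`, for a `K`-algebra `E`. -/
def pointMap {K : Type} [Field K] {n : ℕ} (φ : FreeAlgebra K (Fin n) →ₐ[K] FreeAlgebra K (Fin n))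
    (E : Type) [Ring E] [Algebra K E] : (Fin n → E) → (Fin n → E) :=
  fun X i => FreeAlgebra.lift K X (φ (ι K i))

/-- The elements `u (v w - w v) z` of a ring; their sums form the commutator ideal. -/
def IsCommGen {E : Type} [Ring E] (c : E) : Prop := ∃ u v w z : E, c = u * (v * w - w * v) * z

/-- The commutator ideal of `E`, i.e. the two-sided ideal generated by all commutators, is nilpotent:
for some `r`, all products of `r` elements `u (v w - w v) z` are zero. -/
def NilCommIdeal (E : Type) [Ring E] : Prop :=
  ∃ r : ℕ, ∀ l : List E, l.length = r → (∀ c ∈ l, IsCommGen c) → l.prod = 0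

/-- The power `C^r` of the commutator ideal `C` of `K⟨x_1, …, x_n⟩`: the span of the elements
`a c_1 ⋯ c_r b` with `c_j` of the form `u (v w - w v) z`. -/
def commPow (K : Type) [Field K] (n r : ℕ) : Submodule K (FreeAlgebra K (Fin n)) :=
  Submodule.span K {x | ∃ (a b : FreeAlgebra K (Fin n)) (l : List (FreeAlgebra K (Fin n))),
    l.length = r ∧ (∀ c ∈ l, IsCommGen c) ∧ x = a * l.prod * b}

variable {K : Type} [Field K] {n : ℕ}

lemma good_iff (m : ℕ) (φ : FreeAlgebra K (Fin n) →ₐ[K] FreeAlgebra K (Fin n)) :
    GoodAt m φ ↔ LL.GoodAt m φ := by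
  constructor
  · rintro ⟨ψ, α, h1, h2⟩
    exact ⟨ψ, α, AlgHom.ext h1, h2⟩
  · rintro ⟨ψ, α, h1, h2⟩
    exact ⟨ψ, α, fun a => DFunLike.congr_fun h1 a, h2⟩

lemma good_mono {m m' : ℕ} (h : m ≤ m') (φ : FreeAlgebra K (Fin n) →ₐ[K] FreeAlgebra K (Fin n))
    (hφ : GoodAt m' φ) : GoodAt m φ := by
  obtain ⟨ψ, α, h1, h2⟩ := hφ
  exact ⟨ψ, α, h1, fun i => LL.aug_mono h (h2 i)⟩

/-- Let `K` be a field and let `φ` be an endomorphism of `A = K⟨x_1, …, x_n⟩` with all `φ(x_i)` of degree at
most `d`, good at the level `n(d-1)+2`. Then the map of `φ` on `E^n` is bijective for all associative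
`K`-algebras `E` with nilpotent commutator ideal, and `φ` is invertible modulo `C^r` for all `r`, where `C` is
the commutator ideal of `A`.

Let `n ≥ 1` and `d ≥ 2`. There is an endomorphism of degree at most `d` which is good at the level
`n(d-1)+1` and not injective on `L^n`, for all algebraically closed fields `L` over `K`. So `n(d-1)+2` is the
least level `m` such that all endomorphisms of degree at most `d` which are good at the level `m` are
bijective on `E^n` for all `E` with nilpotent commutator ideal. -/
theorem result (K : Type) [Field K] (n d : ℕ) :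
    (∀ φ : FreeAlgebra K (Fin n) →ₐ[K] FreeAlgebra K (Fin n), (∀ i, φ (ι K i) ∈ degLE K n d) →
      GoodAt (n * (d - 1) + 2) φ →
      (∀ (E : Type) [Ring E] [Algebra K E], NilCommIdeal E → Function.Bijective (pointMap φ E)) ∧
      ∀ r : ℕ, ∃ β : FreeAlgebra K (Fin n) →ₐ[K] FreeAlgebra K (Fin n),
        (∀ a, β (φ a) - a ∈ commPow K n r) ∧ ∀ a, φ (β a) - a ∈ commPow K n r) ∧
    (1 ≤ n → 2 ≤ d →
      (∃ φ : FreeAlgebra K (Fin n) →ₐ[K] FreeAlgebra K (Fin n), (∀ i, φ (ι K i) ∈ degLE K n d) ∧
        GoodAt (n * (d - 1) + 1) φ ∧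
        ∀ (L : Type) [Field L] [Algebra K L] [IsAlgClosed L],
          ¬ Function.Injective (pointMap φ L)) ∧
      IsLeast {m : ℕ | ∀ φ : FreeAlgebra K (Fin n) →ₐ[K] FreeAlgebra K (Fin n),
        (∀ i, φ (ι K i) ∈ degLE K n d) → GoodAt m φ →
        ∀ (E : Type) [Ring E] [Algebra K E], NilCommIdeal E → Function.Bijective (pointMap φ E)}
        (n * (d - 1) + 2)) := by
  have hA : ∀ φ : FreeAlgebra K (Fin n) →ₐ[K] FreeAlgebra K (Fin n),
      (∀ i, φ (ι K i) ∈ degLE K n d) → GoodAt (n * (d - 1) + 2) φ →
      ∀ (E : Type) [Ring E] [Algebra K E], NilCommIdeal E →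
        Function.Bijective (pointMap φ E) := by
    intro φ hd hg E _ _ hE
    obtain ⟨r, hr⟩ := hE
    exact LL.bij_nil d φ hd ((good_iff _ _).1 hg) r hr
  refine ⟨fun φ hd hg => ⟨hA φ hd hg, fun r => LL.inv_mod d φ hd ((good_iff _ _).1 hg) r⟩,
    fun hn hd2 => ?_⟩
  have hB : ∃ φ : FreeAlgebra K (Fin n) →ₐ[K] FreeAlgebra K (Fin n),
      (∀ i, φ (ι K i) ∈ degLE K n d) ∧ GoodAt (n * (d - 1) + 1) φ ∧
        ∀ (L : Type) [Field L] [Algebra K L] [IsAlgClosed L],
          ¬ Function.Injective (pointMap φ L) := by
    obtain ⟨k, rfl⟩ : ∃ k, n = k + 1 := ⟨n - 1, by omega⟩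
    obtain ⟨e, rfl⟩ : ∃ e, d = e + 1 := ⟨d - 1, by omega⟩
    refine ⟨LL.phi K k (e + 1), LL.phi_deg K k e, (good_iff _ _).2 ?_, ?_⟩
    · rw [Nat.add_sub_cancel]
      exact LL.phi_good K k e
    · intro L _ _ _
      exact LL.phi_not_inj K k e (by omega) L
  refine ⟨hB, hA, ?_⟩
  intro m hm
  by_contra hlt
  obtain ⟨φ, h1, h2, h3⟩ := hB
  refine h3 (AlgebraicClosure K) (hm φ h1 (good_mono (by omega) φ h2) (AlgebraicClosure K) ?_).1
  refine ⟨1, fun l hl hc => ?_⟩
  obtain ⟨c, rfl⟩ := List.length_eq_one_iff.1 hl
  obtain ⟨u, v, w, z, rfl⟩ := hc c (by simp)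
  simp [mul_comm v w]

end Pool.Agent.Results.MP_54c2ef_al.ExactLevelNilCommutator
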