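import Pool.Agent.H316.LL.Main

/-!
MP_54c2ef_al. One explicit level of goodness for the bijectivity on points in matrix algebras.

An endomorphism `φ` of `K⟨x_1, …, x_n⟩` acts on `B^n` for all `K`-algebras `B`:
`X ↦ (φ(x_1)(X), …, φ(x_n)(X))`. Let `M` be an algebra of finite dimension. If `φ` is of degree at most `d`
and good at the single level `dim(M) n (d-1) + 2`, then the map is bijective for all `B = R ⊗ S`, where `R`
is any commutative `K`-algebra and `S` is any algebra of upper triangular matrices, of any size, over `M`.
For example, the level `N^2 n (d-1) + 2` is sufficient for the `N × N` matrices, and for block triangular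
matrices with blocks of size `N`, over all commutative algebras `R`.

Proof. The Jacobian matrix `J(X, Y)` at two points is defined by noncommutative divided differences and
satisfies `J(X, Y)(X - Y) = Φ(X) - Φ(Y)`. For generic points `tX, tY` of `M` its determinant
is a polynomial in `t` of degree at most `dim(M) n (d-1)`, and it is congruent to a constant modulo
`t^(level - 1)` by the chain rule, since for automorphisms it is a unit; so it is a constant different from
zero. This gives injectivity, first for `M`, and then, entry by entry, for triangular matrices over `M`, and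
over all commutative `R`. A polynomial map of affine space which is injective on the points over all
commutative algebras is an automorphism.

The Jacobian at two points is taken from the library module `H2.FreeGood`.
-/

set_option autoImplicit false

namespace Pool.Agent.Results.MP_54c2ef_al.LevelMatrixAlgebras

open FreeAlgebra TensorProduct Pool.Agent.H316

/-- The power `I^m` of the ideal `I = (x_1, …, x_n)` of the free algebra `K⟨x_1, …, x_n⟩`: the
`K`-span of all monomials of degree at least `m`. -/
def augPow (K : Type) [Field K] (n m : ℕ) : Submodule K (FreeAlgebra K (Fin n)) :=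
  Submodule.span K {w | ∃ l : List (Fin n), m ≤ l.length ∧ w = (l.map (ι K)).prod}

/-- The elements of degree at most `d` of `K⟨x_1, …, x_n⟩`: the `K`-span of all monomials of
degree at most `d`. -/
def degLE (K : Type) [Field K] (n d : ℕ) : Submodule K (FreeAlgebra K (Fin n)) :=
  Submodule.span K {w | ∃ l : List (Fin n), l.length ≤ d ∧ w = (l.map (ι K)).prod}

/-- `φ` is good at the level `m`: `φ = ψ ∘ α` with an automorphism `α` and an endomorphism `ψ` such that
`ψ(x_i) ≡ x_i` modulo `I^m` for all `i`. -/
def GoodAt {K : Type} [Field K] {n : ℕ} (m : ℕ)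
    (φ : FreeAlgebra K (Fin n) →ₐ[K] FreeAlgebra K (Fin n)) : Prop :=
  ∃ (ψ : FreeAlgebra K (Fin n) →ₐ[K] FreeAlgebra K (Fin n))
    (α : FreeAlgebra K (Fin n) ≃ₐ[K] FreeAlgebra K (Fin n)),
      (∀ a, φ a = ψ (α a)) ∧ ∀ i, ψ (ι K i) - ι K i ∈ augPow K n m

/-- The map `B^n → B^n`, `X ↦ (φ(x_1)(X), …, φ(x_n)(X))`, for a `K`-algebra `B`. -/
def pointMap {K : Type} [Field K] {n : ℕ} (φ : FreeAlgebra K (Fin n) →ₐ[K] FreeAlgebra K (Fin n))
    (B : Type) [Ring B] [Algebra K B] : (Fin n → B) → (Fin n → B) :=
  fun X i => FreeAlgebra.lift K X (φ (ι K i))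

/-- The algebra `S` is isomorphic to an algebra of upper triangular matrices (of some size) with
entries in `M`. -/
def TriangularOver (K M S : Type) [Field K] [Ring M] [Algebra K M] [Ring S] [Algebra K S] : Prop :=
  ∃ (r : ℕ) (ρ : S →ₐ[K] Matrix (Fin r) (Fin r) M), Function.Injective ρ ∧
    ∀ s i j, j < i → ρ s i j = 0

/-- Let `K` be a field and let `φ` be an endomorphism of `K⟨x_1, …, x_n⟩` with all `φ(x_i)` of degree at
most `d`. Let `M` be an associative `K`-algebra of finite dimension. If `φ` is good at the level
`dim(M) n (d-1) + 2`, then the map of `φ` on `B^n` is bijective for all `B = R ⊗ S`, where `S` is any algebra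
of upper triangular matrices over `M` and `R` is any commutative `K`-algebra. -/
theorem result (K : Type) [Field K] (n d : ℕ)
    (φ : FreeAlgebra K (Fin n) →ₐ[K] FreeAlgebra K (Fin n)) (hd : ∀ i, φ (ι K i) ∈ degLE K n d)
    (M : Type) [Ring M] [Algebra K M] [Module.Finite K M]
    (hg : GoodAt (Module.finrank K M * n * (d - 1) + 2) φ)
    (S : Type) [Ring S] [Algebra K S] (hS : TriangularOver K M S)
    (R : Type) [CommRing R] [Algebra K R] : Function.Bijective (pointMap φ (R ⊗[K] S)) := by
  obtain ⟨r, ρ, hρ, ht⟩ := hS
  obtain ⟨ψ, α, h1, h2⟩ := hg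
  exact LL.bij_tri ρ hρ ht d φ hd ⟨ψ, α, AlgHom.ext h1, h2⟩ R

end Pool.Agent.Results.MP_54c2ef_al.LevelMatrixAlgebras
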